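import Pool.Agent.Helper50.FE.Goals

/-!
# Project FE: packet UB, upper bound at a point close to `(1,...,1)`
-/

set_option autoImplicit false

namespace Pool.Agent.Helper87.FE

open Pool.Agent.Helper50.FE

variable {m : ℕ}

theorem mem_box {r a : Fin m → ℕ} : a ∈ box r ↔ ∀ i, a i ≤ r i := by
  unfold box
  rw [Fintype.mem_piFinset]
  refine forall_congr' fun i => ?_
  rw [Finset.mem_range, Nat.lt_succ_iff]

theorem card_box (r : Fin m → ℕ) : (box r).card ≤ 2 ^ (∑ i, r i) := by
  unfold box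
  rw [Fintype.card_piFinset, ← Finset.prod_pow_eq_pow_sum]
  refine Finset.prod_le_prod' fun i _ => ?_
  rw [Finset.card_range]
  exact Nat.lt_two_pow_self

/-- The binomial expansion in one variable. -/
theorem expand (a e R : ℕ) (h : a ≤ R) (y : ℚ) :
    ((a.choose e : ℕ) : ℚ) * y ^ (a - e) =
      ∑ f ∈ Finset.range (R + 1),
        ((a.choose (e + f) : ℕ) : ℚ) * ((((e + f).choose e : ℕ) : ℚ) * (y - 1) ^ f) := by
  have key : ∀ f : ℕ, ((a.choose (e + f) : ℕ) : ℚ) * (((e + f).choose e : ℕ) : ℚ) =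
      ((a.choose e : ℕ) : ℚ) * (((a - e).choose f : ℕ) : ℚ) := by
    intro f
    by_cases h1 : e + f ≤ a
    · have h2 := Nat.choose_mul (n := a) (Nat.le_add_right e f)
      rw [Nat.add_sub_cancel_left] at h2
      exact_mod_cast h2
    · have h2 : a.choose (e + f) = 0 := Nat.choose_eq_zero_of_lt (by omega)
      rw [h2]
      by_cases h3 : e ≤ a
      · have h4 : (a - e).choose f = 0 := Nat.choose_eq_zero_of_lt (by omega)
        rw [h4]
        simp
      · have h4 : a.choose e = 0 := Nat.choose_eq_zero_of_lt (by omega)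
        rw [h4]
        simp
  have h1 : y ^ (a - e) = ∑ f ∈ Finset.range (R + 1),
      (((a - e).choose f : ℕ) : ℚ) * (y - 1) ^ f := by
    have h2 : y = (y - 1) + 1 := by ring
    conv_lhs => rw [h2, add_pow]
    simp only [one_pow, mul_one]
    have h3 : Finset.range (a - e + 1) ⊆ Finset.range (R + 1) := by
      apply Finset.range_subset_range.2
      omega
    rw [← Finset.sum_subset h3]
    · refine Finset.sum_congr rfl fun f _ => ?_
      ring
    · intro f _ hf
      rw [Finset.mem_range, not_lt] at hf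
      rw [Nat.choose_eq_zero_of_lt (by omega)]
      simp
  rw [h1, Finset.mul_sum]
  refine Finset.sum_congr rfl fun f _ => ?_
  rw [← mul_assoc, ← mul_assoc, key]

/-- The values of the divided derivatives at `(1,...,1)`. -/
def TT (r : Fin m → ℕ) (c : (Fin m → ℕ) → ℤ) (b : Fin m → ℕ) : ℤ :=
  ∑ a ∈ box r, c a * ∏ i, (((a i).choose (b i) : ℕ) : ℤ)

theorem val_eq (r : Fin m → ℕ) (c : (Fin m → ℕ) → ℤ) (e : Fin m → ℕ) (y : Fin m → ℚ) :
    val r c e y = ∑ f ∈ box r,
      (∏ i, ((((e i + f i).choose (e i) : ℕ) : ℚ) * (y i - 1) ^ (f i))) *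
        (TT r c (fun i => e i + f i) : ℚ) := by
  have h1 : ∀ a ∈ box r, (c a : ℚ) * ∏ i, ((((a i).choose (e i) : ℕ) : ℚ) * y i ^ (a i - e i)) =
      ∑ f ∈ box r, (∏ i, ((((e i + f i).choose (e i) : ℕ) : ℚ) * (y i - 1) ^ (f i))) *
        ((c a : ℚ) * ∏ i, (((a i).choose (e i + f i) : ℕ) : ℚ)) := by
    intro a ha
    rw [mem_box] at ha
    rw [Finset.prod_congr rfl fun i _ => expand (a i) (e i) (r i) (ha i) (y i),
      Finset.prod_univ_sum, Finset.mul_sum]
    refine Finset.sum_congr rfl fun f _ => ?_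
    rw [Finset.prod_mul_distrib]
    ring
  unfold val
  rw [Finset.sum_congr rfl h1, Finset.sum_comm]
  refine Finset.sum_congr rfl fun f _ => ?_
  rw [← Finset.mul_sum]
  unfold TT
  push_cast
  rfl

theorem TT_big (r : Fin m → ℕ) (c : (Fin m → ℕ) → ℤ) (b : Fin m → ℕ) {i : Fin m}
    (h : r i < b i) : TT r c b = 0 := by
  unfold TT
  refine Finset.sum_eq_zero fun a ha => ?_
  rw [mem_box] at ha
  have h1 : (a i).choose (b i) = 0 := Nat.choose_eq_zero_of_lt ((ha i).trans_lt h)
  rw [Finset.prod_eq_zero (Finset.mem_univ i) (by rw [h1]; rfl), mul_zero]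

theorem TT_le (r : Fin m → ℕ) (c : (Fin m → ℕ) → ℤ) (b : Fin m → ℕ)
    (hc : ∀ a, |c a| ≤ 4 ^ (∑ i, r i)) : |TT r c b| ≤ 16 ^ (∑ i, r i) := by
  have h1 : ∀ a ∈ box r, |c a * ∏ i, (((a i).choose (b i) : ℕ) : ℤ)| ≤
      4 ^ (∑ i, r i) * 2 ^ (∑ i, r i) := by
    intro a ha
    rw [mem_box] at ha
    rw [abs_mul]
    refine mul_le_mul (hc a) ?_ (abs_nonneg _) (by positivity)
    rw [Finset.abs_prod, ← Finset.prod_pow_eq_pow_sum]
    refine Finset.prod_le_prod (fun i _ => abs_nonneg _) fun i _ => ?_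
    rw [abs_of_nonneg (by positivity)]
    have h2 : (a i).choose (b i) ≤ 2 ^ (r i) :=
      (Nat.choose_le_two_pow (a i) (b i)).trans (Nat.pow_le_pow_right (by norm_num) (ha i))
    exact_mod_cast h2
  calc |TT r c b| ≤ ∑ a ∈ box r, |c a * ∏ i, (((a i).choose (b i) : ℕ) : ℤ)| :=
        Finset.abs_sum_le_sum_abs _ _
    _ ≤ ∑ _a ∈ box r, 4 ^ (∑ i, r i) * 2 ^ (∑ i, r i) := Finset.sum_le_sum h1
    _ = ((box r).card : ℤ) * (4 ^ (∑ i, r i) * 2 ^ (∑ i, r i)) := by
        rw [Finset.sum_const, nsmul_eq_mul]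
    _ ≤ 2 ^ (∑ i, r i) * (4 ^ (∑ i, r i) * 2 ^ (∑ i, r i)) := by
        refine mul_le_mul_of_nonneg_right ?_ (by positivity)
        exact_mod_cast card_box r
    _ = 16 ^ (∑ i, r i) := by
        rw [← mul_pow, ← mul_pow]
        norm_num

/-- **FE-UB.** -/
theorem goalUB : Pool.Agent.Helper50.FE.UB := by
  intro m r c e y β B hr hc he hB hβ hy hBβ
  obtain ⟨-, -, hcb, hcv⟩ := hc
  set R : ℕ := ∑ i, r i with hR
  set Q : ℝ := Real.exp (-(B * ((m : ℝ) / 2 - Real.sqrt m - 1))) with hQ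
  have hQ0 : 0 < Q := Real.exp_pos _
  rw [val_eq]
  push_cast
  have hterm : ∀ f ∈ box r,
      |(∏ i, ((((e i + f i).choose (e i) : ℕ) : ℝ) * (((y i : ℚ) : ℝ) - 1) ^ (f i))) *
        ((TT r c (fun i => e i + f i) : ℤ) : ℝ)| ≤ 32 ^ R * Q := by
    intro f hf
    by_cases h0 : TT r c (fun i => e i + f i) = 0
    · rw [h0, Int.cast_zero, mul_zero, abs_zero]
      positivity
    have h1 : ∀ i, e i + f i ≤ r i := by
      intro i
      by_contra hcon
      exact h0 (TT_big r c _ (i := i) (not_le.1 hcon))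
    have h2 : (m : ℝ) / 2 - Real.sqrt m ≤ wt r (fun i => e i + f i) := by
      by_contra hcon
      exact h0 (hcv _ (not_le.1 hcon))
    have h3 : wt r (fun i => e i + f i) = wt r e + wt r f := by
      unfold wt
      rw [← Finset.sum_add_distrib]
      refine Finset.sum_congr rfl fun i _ => ?_
      push_cast
      ring
    have h4 : (m : ℝ) / 2 - Real.sqrt m - 1 ≤ wt r f := by
      rw [h3] at h2
      linarith
    rw [abs_mul, Finset.abs_prod]
    have h5 : |((TT r c (fun i => e i + f i) : ℤ) : ℝ)| ≤ 16 ^ R := by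
      have := TT_le r c (fun i => e i + f i) hcb
      exact_mod_cast this
    have h6 : ∏ i, |(((e i + f i).choose (e i) : ℕ) : ℝ) * (((y i : ℚ) : ℝ) - 1) ^ (f i)| ≤
        2 ^ R * Q := by
      have h7 : ∀ i, |(((e i + f i).choose (e i) : ℕ) : ℝ) * (((y i : ℚ) : ℝ) - 1) ^ (f i)| ≤
          2 ^ (r i) * Real.exp (-(B * ((f i : ℝ) / (r i : ℝ)))) := by
        intro i
        rw [abs_mul, abs_pow, Nat.abs_cast]
        refine mul_le_mul ?_ ?_ (by positivity) (by positivity)
        · have h8 : (e i + f i).choose (e i) ≤ 2 ^ (r i) :=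
            (Nat.choose_le_two_pow _ _).trans (Nat.pow_le_pow_right (by norm_num) (h1 i))
          exact_mod_cast h8
        · have hri : (0 : ℝ) < r i := by exact_mod_cast hr i
          calc |((y i : ℚ) : ℝ) - 1| ^ (f i) ≤ Real.exp (-(β i)) ^ (f i) :=
                pow_le_pow_left₀ (abs_nonneg _) (hy i) _
            _ = Real.exp (-(β i * f i)) := by
                rw [← Real.exp_nat_mul]
                congr 1
                ring
            _ ≤ Real.exp (-(B * ((f i : ℝ) / (r i : ℝ)))) := by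
                apply Real.exp_le_exp.2
                have h9 : B * ((f i : ℝ) / (r i : ℝ)) ≤ β i * f i := by
                  rw [mul_div_assoc', div_le_iff₀ hri]
                  have := mul_le_mul_of_nonneg_right (hBβ i) (Nat.cast_nonneg (α := ℝ) (f i))
                  linarith
                linarith
      calc ∏ i, |(((e i + f i).choose (e i) : ℕ) : ℝ) * (((y i : ℚ) : ℝ) - 1) ^ (f i)|
          ≤ ∏ i, (2 ^ (r i) * Real.exp (-(B * ((f i : ℝ) / (r i : ℝ))))) :=
            Finset.prod_le_prod (fun i _ => abs_nonneg _) fun i _ => h7 i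
        _ = 2 ^ R * Real.exp (-(B * wt r f)) := by
            rw [Finset.prod_mul_distrib, Finset.prod_pow_eq_pow_sum, ← Real.exp_sum]
            unfold wt
            rw [Finset.sum_neg_distrib, ← Finset.mul_sum]
        _ ≤ 2 ^ R * Q := by
            refine mul_le_mul_of_nonneg_left ?_ (by positivity)
            apply Real.exp_le_exp.2
            have := mul_le_mul_of_nonneg_left h4 hB
            linarith
    calc (∏ i, |(((e i + f i).choose (e i) : ℕ) : ℝ) * (((y i : ℚ) : ℝ) - 1) ^ (f i)|) *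
          |((TT r c (fun i => e i + f i) : ℤ) : ℝ)| ≤ (2 ^ R * Q) * 16 ^ R :=
          mul_le_mul h6 h5 (abs_nonneg _) (by positivity)
      _ = 32 ^ R * Q := by
          rw [mul_right_comm, ← mul_pow]
          norm_num
  calc |∑ f ∈ box r, (∏ i, ((((e i + f i).choose (e i) : ℕ) : ℝ) *
        (((y i : ℚ) : ℝ) - 1) ^ (f i))) * ((TT r c (fun i => e i + f i) : ℤ) : ℝ)|
      ≤ ∑ f ∈ box r, |(∏ i, ((((e i + f i).choose (e i) : ℕ) : ℝ) *
        (((y i : ℚ) : ℝ) - 1) ^ (f i))) * ((TT r c (fun i => e i + f i) : ℤ) : ℝ)| :=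
        Finset.abs_sum_le_sum_abs _ _
    _ ≤ ∑ _f ∈ box r, 32 ^ R * Q := Finset.sum_le_sum hterm
    _ = ((box r).card : ℝ) * (32 ^ R * Q) := by rw [Finset.sum_const, nsmul_eq_mul]
    _ ≤ 2 ^ R * (32 ^ R * Q) := by
        refine mul_le_mul_of_nonneg_right ?_ (by positivity)
        exact_mod_cast card_box r
    _ = 64 ^ R * Q := by
        rw [← mul_assoc, ← mul_pow]
        norm_num

end Pool.Agent.Helper87.FE
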